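import Pool.Agent.T9h77.NF.Spec

/-! Extension of scalars for multilinear forms (piece `ExtR` of `T9h77/NF/Spec.lean`). -/

set_option autoImplicit false

namespace Pool.Agent.T9h10.NF

open scoped TensorProduct

/-- extension of scalars of a `ℤ`-linear map, as a `ℤ`-linear map. -/
noncomputable def ext1 (M N : Type) [AddCommGroup M] [AddCommGroup N] [Module ℝ N] :
    (M →ₗ[ℤ] N) →ₗ[ℤ] ((ℝ ⊗[ℤ] M) →ₗ[ℝ] N) :=
  (LinearMap.liftBaseChangeEquiv (R := ℤ) (M := M) (N := N) ℝ).toLinearMap.restrictScalars ℤ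

theorem ext1_tmul {M N : Type} [AddCommGroup M] [AddCommGroup N] [Module ℝ N] (l : M →ₗ[ℤ] N)
    (y : M) : ext1 M N l ((1 : ℝ) ⊗ₜ[ℤ] y) = l y := by
  unfold ext1
  simp

theorem extG (M : Type) [AddCommGroup M] (n : ℕ) :
    ∀ (N : Type) [AddCommGroup N] [Module ℝ N] (f : MultilinearMap ℤ (fun _ : Fin n => M) N),
      ∃ F : MultilinearMap ℝ (fun _ : Fin n => ℝ ⊗[ℤ] M) N,
        ∀ x : Fin n → M, F (fun i => (1 : ℝ) ⊗ₜ[ℤ] x i) = f x := by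
  induction n with
  | zero =>
    intro N _ _ f
    refine ⟨MultilinearMap.constOfIsEmpty ℝ _ (f (fun _ => 0)), fun x => ?_⟩
    rw [MultilinearMap.constOfIsEmpty_apply, show x = fun _ => 0 from Subsingleton.elim _ _]
    rfl
  | succ n ih =>
    intro N _ _ f
    obtain ⟨F, hF⟩ := ih ((ℝ ⊗[ℤ] M) →ₗ[ℝ] N) ((ext1 M N).compMultilinearMap f.curryRight)
    refine ⟨MultilinearMap.uncurryRight F, fun x => ?_⟩
    rw [MultilinearMap.uncurryRight_apply]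
    have h1 : (Fin.init (fun i : Fin (n + 1) => (1 : ℝ) ⊗ₜ[ℤ] x i))
        = fun i : Fin n => (1 : ℝ) ⊗ₜ[ℤ] (x (Fin.castSucc i)) := rfl
    rw [h1, hF (fun i => x (Fin.castSucc i))]
    rw [LinearMap.compMultilinearMap_apply, ext1_tmul, MultilinearMap.curryRight_apply]
    congr 1
    exact Fin.snoc_init_self x

theorem extR' : ∀ (M : Type) [AddCommGroup M] (n : ℕ),
    (∀ f : MultilinearMap ℤ (fun _ : Fin n => M) ℝ,
      ∃ F : MultilinearMap ℝ (fun _ : Fin n => ℝ ⊗[ℤ] M) ℝ,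
        ∀ x : Fin n → M, F (fun i => (1 : ℝ) ⊗ₜ[ℤ] x i) = f x) ∧
    (∀ g : MultilinearMap ℤ (fun _ : Fin n => M) (M →ₗ[ℤ] ℝ),
      ∃ G : MultilinearMap ℝ (fun _ : Fin n => ℝ ⊗[ℤ] M) ((ℝ ⊗[ℤ] M) →ₗ[ℝ] ℝ),
        ∀ (x : Fin n → M) (y : M), G (fun i => (1 : ℝ) ⊗ₜ[ℤ] x i) ((1 : ℝ) ⊗ₜ[ℤ] y) = g x y) := by
  intro M _ n
  refine ⟨fun f => extG M n ℝ f, fun g => ?_⟩
  obtain ⟨G, hG⟩ := extG M n ((ℝ ⊗[ℤ] M) →ₗ[ℝ] ℝ) ((ext1 M ℝ).compMultilinearMap g)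
  refine ⟨G, fun x y => ?_⟩
  rw [hG, LinearMap.compMultilinearMap_apply, ext1_tmul]

theorem extR : Pool.Agent.T9h77.NF.ExtR := extR'

end Pool.Agent.T9h10.NF
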